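import Mathlib
import Pool.Agent.Helper29.GD.NT
import Pool.Agent.Helper11.CanTypes
import Pool.Agent.Helper11.Point

/-!
# Semilinear automorphisms of products of a family of varieties
-/

universe u v w

open CategoryTheory AlgebraicGeometry Limits

namespace Pool.Agent.Helper60.GD

open Pool.Agent.Helper10 Pool.Agent.Helper10.SmProjVar Pool.Agent.Helper47.Chow
  Pool.Agent.Helper47.Desc Pool.Agent.Helper29.GD Pool.Agent.Helper11
open Pool.Agent.Helper11.Obs (prodVar prodFst prodProj extProd wordClass)

variable {k : Type u} [Field k]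

section Act

/-- The semilinear automorphism `a × g 0 × … × g (b - 1)` of `A × V 0 × … × V (b - 1)`, over the
automorphism of `k` under `a`. -/
noncomputable def prodA {A : SmProjVar k} (a : SemiAut A) : ∀ {b : ℕ} {V : Fin b → SmProjVar k}
    (g : ∀ i, SemiAut (V i)), (∀ i, (g i).base = a.base) →
      {t : SemiAut (prodVar A V) // t.base = a.base}
  | 0, _, _, _ => ⟨a, rfl⟩
  | _ + 1, V, g, h => ⟨prodAut (prodA a (fun i => g i.castSucc) fun i => h i.castSucc).1
      (g (Fin.last _))
      ((prodA a (fun i => g i.castSucc) fun i => h i.castSucc).2.trans (h (Fin.last _)).symm),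
      (prodA a (fun i => g i.castSucc) fun i => h i.castSucc).2⟩

/-- The semilinear automorphism `a × g 0 × … × g (b - 1)` of `A × V 0 × … × V (b - 1)`, over the
automorphism of `k` under `a`. -/
noncomputable def prodG {A : SmProjVar k} (a : SemiAut A) {b : ℕ} {V : Fin b → SmProjVar k}
    (g : ∀ i, SemiAut (V i)) (h : ∀ i, (g i).base = a.base) : SemiAut (prodVar A V) :=
  (prodA a g h).1

lemma prodG_base {A : SmProjVar k} (a : SemiAut A) {b : ℕ} {V : Fin b → SmProjVar k}
    (g : ∀ i, SemiAut (V i)) (h : ∀ i, (g i).base = a.base) : (prodG a g h).base = a.base :=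
  (prodA a g h).2

lemma prodG_zero {A : SmProjVar k} (a : SemiAut A) {V : Fin 0 → SmProjVar k}
    (g : ∀ i, SemiAut (V i)) (h : ∀ i, (g i).base = a.base) : prodG a g h = a := rfl

lemma prodG_succ {A : SmProjVar k} (a : SemiAut A) {b : ℕ} {V : Fin (b + 1) → SmProjVar k}
    (g : ∀ i, SemiAut (V i)) (h : ∀ i, (g i).base = a.base) :
    prodG a g h = prodAut (prodG a (fun i => g i.castSucc) fun i => h i.castSucc)
      (g (Fin.last _)) ((prodG_base a (fun i => g i.castSucc) fun i => h i.castSucc).trans
        (h (Fin.last _)).symm) := rfl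

lemma comm_prodFst {A : SmProjVar k} (a : SemiAut A) : ∀ {b : ℕ} {V : Fin b → SmProjVar k}
    (g : ∀ i, SemiAut (V i)) (h : ∀ i, (g i).base = a.base), Comm (prodG a g h) a (prodFst A V)
  | 0, _, _, _ => comm_id a
  | _ + 1, V, g, h => (comm_fst (prodG a (fun i => g i.castSucc) fun i => h i.castSucc)
      (g (Fin.last _)) _).comp (comm_prodFst a (fun i => g i.castSucc) fun i => h i.castSucc)

lemma prodProj_last {A : SmProjVar k} {b : ℕ} (V : Fin (b + 1) → SmProjVar k) :
    prodProj A V (Fin.last b) = snd (prodVar A fun i => V i.castSucc) (V (Fin.last b)) :=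
  Fin.lastCases_last

lemma prodProj_castSucc {A : SmProjVar k} {b : ℕ} (V : Fin (b + 1) → SmProjVar k) (i : Fin b) :
    prodProj A V i.castSucc = fst (prodVar A fun i => V i.castSucc) (V (Fin.last b)) ≫
      prodProj A (fun i => V i.castSucc) i :=
  Fin.lastCases_castSucc i

lemma comm_prodProj {A : SmProjVar k} (a : SemiAut A) : ∀ {b : ℕ} {V : Fin b → SmProjVar k}
    (g : ∀ i, SemiAut (V i)) (h : ∀ i, (g i).base = a.base) (i : Fin b),
      Comm (prodG a g h) (g i) (prodProj A V i)
  | 0, _, _, _ => fun i => i.elim0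
  | b + 1, V, g, h => by
    intro i
    refine Fin.lastCases ?_ (fun i => ?_) i
    · rw [prodProj_last]
      exact comm_snd (prodG a (fun i => g i.castSucc) fun i => h i.castSucc)
        (g (Fin.last _)) _
    · rw [prodProj_castSucc]
      exact (comm_fst (prodG a (fun i => g i.castSucc) fun i => h i.castSucc)
        (g (Fin.last _)) _).comp (comm_prodProj a (fun i => g i.castSucc)
          (fun i => h i.castSucc) i)

/-- The morphism to a product with given components. -/
noncomputable def prodLift {T A : SmProjVar k} (p : T.toOver ⟶ A.toOver) :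
    ∀ {b : ℕ} {V : Fin b → SmProjVar k} (_ : ∀ i, T.toOver ⟶ (V i).toOver),
      T.toOver ⟶ (prodVar A V).toOver
  | 0, _, _ => p
  | _ + 1, V, f => lift (X := prodVar A fun i => V i.castSucc) (Y := V (Fin.last _))
      (prodLift p fun i => f i.castSucc) (f (Fin.last _))

lemma prodLift_succ {T A : SmProjVar k} (p : T.toOver ⟶ A.toOver) {b : ℕ}
    {V : Fin (b + 1) → SmProjVar k} (f : ∀ i, T.toOver ⟶ (V i).toOver) :
    prodLift p f = lift (X := prodVar A fun i => V i.castSucc) (Y := V (Fin.last _))
      (prodLift p fun i => f i.castSucc) (f (Fin.last _)) := rfl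

lemma prodLift_fst {T A : SmProjVar k} (p : T.toOver ⟶ A.toOver) :
    ∀ {b : ℕ} {V : Fin b → SmProjVar k} (f : ∀ i, T.toOver ⟶ (V i).toOver),
      prodLift p f ≫ prodFst A V = p
  | 0, _, _ => Category.comp_id p
  | b + 1, V, f => by
    change lift (X := prodVar A fun i => V i.castSucc) (Y := V (Fin.last _))
      (prodLift p fun i => f i.castSucc) (f (Fin.last _)) ≫ fst _ _ ≫ prodFst A _ = p
    rw [lift_fst_assoc]
    exact prodLift_fst p fun i => f i.castSucc

lemma prodLift_proj {T A : SmProjVar k} (p : T.toOver ⟶ A.toOver) :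
    ∀ {b : ℕ} {V : Fin b → SmProjVar k} (f : ∀ i, T.toOver ⟶ (V i).toOver) (i : Fin b),
      prodLift p f ≫ prodProj A V i = f i
  | 0, _, _ => fun i => i.elim0
  | b + 1, V, f => by
    intro i
    refine Fin.lastCases ?_ (fun i => ?_) i
    · rw [prodProj_last]
      exact lift_snd _ _
    · rw [prodProj_castSucc]
      exact (lift_fst_assoc (X := prodVar A fun i => V i.castSucc) (Y := V (Fin.last _)) _ _
        _).trans (prodLift_proj p (fun i => f i.castSucc) i)

lemma comm_prodLift {T A : SmProjVar k} (a : SemiAut A) (t : SemiAut T)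
    {p : T.toOver ⟶ A.toOver} (hp : Comm t a p) : ∀ {b : ℕ} {V : Fin b → SmProjVar k}
    (g : ∀ i, SemiAut (V i)) (h : ∀ i, (g i).base = a.base) (f : ∀ i, T.toOver ⟶ (V i).toOver),
      (∀ i, Comm t (g i) (f i)) → Comm t (prodG a g h) (prodLift p f)
  | 0, _, _, _, _, _ => hp
  | b + 1, V, g, h, f, hf => comm_lift _ _ _ _
      (comm_prodLift a t hp (fun i => g i.castSucc) (fun i => h i.castSucc)
        (fun i => f i.castSucc) fun i => hf i.castSucc) (hf (Fin.last _))

lemma prodA_congr {A : SmProjVar k} {a a' : SemiAut A} (ha : a = a') {b : ℕ}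
    {V : Fin b → SmProjVar k} {g g' : ∀ i, SemiAut (V i)} (hg : g = g')
    (h : ∀ i, (g i).base = a.base) (h' : ∀ i, (g' i).base = a'.base) :
    prodG a g h = prodG a' g' h' := by
  subst ha hg
  rfl

lemma prodG_mul {A : SmProjVar k} (a a' : SemiAut A) : ∀ {b : ℕ} {V : Fin b → SmProjVar k}
    (g g' : ∀ i, SemiAut (V i)) (h : ∀ i, (g i).base = a.base) (h' : ∀ i, (g' i).base = a'.base)
    (h'' : ∀ i, (g i * g' i).base = (a * a').base),
    prodG (a * a') (fun i => g i * g' i) h'' = prodG a g h * prodG a' g' h'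
  | 0, _, _, _, _, _, _ => rfl
  | b + 1, V, g, g', h, h', h'' => by
    have ih := prodG_mul a a' (fun i => g i.castSucc) (fun i => g' i.castSucc)
      (fun i => h i.castSucc) (fun i => h' i.castSucc) (fun i => h'' i.castSucc)
    rw [prodG_succ, prodG_succ, prodG_succ]
    have key : ∀ (x : SemiAut (prodVar A fun i => V i.castSucc)) (y : SemiAut (V (Fin.last _)))
        (x' : SemiAut (prodVar A fun i => V i.castSucc)) (e : x.base = y.base)
        (e' : x'.base = y.base), x = x' → prodAut x y e = prodAut x' y e' := by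
      intro x y x' e e' hx
      subst hx
      rfl
    refine (key _ _ _ _ ?_ ih).trans (prodAut_mul _ _ _ _ _ _)
    rw [← ih, prodG_base]
    exact (h'' _).symm

lemma prodG_one {A : SmProjVar k} : ∀ {b : ℕ} {V : Fin b → SmProjVar k}
    (h : ∀ i, (1 : SemiAut (V i)).base = (1 : SemiAut A).base),
    prodG (1 : SemiAut A) (fun i => (1 : SemiAut (V i))) h = 1
  | 0, _, _ => rfl
  | b + 1, V, h => by
    have ih := prodG_one (A := A) (V := fun i => V i.castSucc) (fun i => h i.castSucc)
    rw [prodG_succ]
    have key : ∀ (x : SemiAut (prodVar A fun i => V i.castSucc)) (y : SemiAut (V (Fin.last _)))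
        (x' : SemiAut (prodVar A fun i => V i.castSucc)) (e : x.base = y.base)
        (e' : x'.base = y.base), x = x' → prodAut x y e = prodAut x' y e' := by
      intro x y x' e e' hx
      subst hx
      rfl
    exact (key _ _ _ _ base_one_eq ih).trans prodAut_one

end Act

end Pool.Agent.Helper60.GD
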