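import Mathlib
import Pool.Agent.Helper34.GD.Types
import Pool.Agent.Helper11.SS.Final

/-!
# Pieces with a simple Frobenius spectrum at a specialisation: numerically trivial classes are
orthogonal to words
-/

universe u v w u' w'

open CategoryTheory Finset Polynomial

namespace Pool.Agent.Helper34.GD

open Pool.Agent.Helper10 hiding IsAlgAut parityPart
open SmProjVar Pool.Agent.Helper10.GIT
open Pool.Agent.Helper11 Pool.Agent.Helper11.BD Pool.Agent.Helper11.Zt
open Pool.Agent.Helper11.Obs (extProd wordClass prodVar prodFst prodProj IsNumTrivial parityPart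
  power wordVar AreRelatedFlags IsTotallyIsotropic NumTrivialOrthogonal IsPiece)

variable {k : Type u} [Field k] {K : Type v} [Field K] [CharZero K]
  {k' : Type u'} [Field k']

/-- Pieces over `F` specialise. -/
theorem isPieceOver_map {W : WeilCohomology.{u, v, w} k K} {W' : WeilCohomology.{u', v, w'} k' K}
    {P : ℕ} {V : Fin P → SmProjVar k} {V' : Fin P → SmProjVar k'} {F : Subfield K}
    {φ : ∀ c, W.H (V c) → W'.H (V' c)}
    (hφ : AreSpecializations W.toCohomologyData W'.toCohomologyData V V' φ) (c : Fin P)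
    {E : Submodule K (W.H (V c))} (hE : Ro.IsPieceOver W.toCohomologyData F (V c) E) :
    Ro.IsPieceOver W'.toCohomologyData F (V' c) (E.map (hφ.lin c)) := by
  obtain ⟨p, hp⟩ := hE.parity
  obtain ⟨u, hu, hu1⟩ := hE.projector
  obtain ⟨u', hu', hu2⟩ := hφ.exists_map c hu
  refine ⟨⟨p, ?_⟩, u', hu', fun y => ?_⟩
  · rintro _ ⟨x, hx, rfl⟩
    exact hφ.map_par c (hp hx)
  · obtain ⟨y, rfl⟩ := (hφ.bijective c).2 y
    rw [hu2]
    refine ⟨⟨u y, (hu1 y).1, rfl⟩, ?_⟩
    rintro _ ⟨x, hx, rfl⟩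
    change W'.pairing (V' c) (φ c x) (φ c (u y)) = W'.pairing (V' c) (φ c x) (φ c y)
    rw [hφ.pairing_eq, hφ.pairing_eq]
    exact (hu1 y).2 x hx

section

variable (W : WeilCohomology.{u, v, w} k K) {F : Subfield K}
  (W' : WeilCohomology.{u', v, w'} k' K)
  {P : ℕ} {V : Fin P → SmProjVar k} {V' : Fin P → SmProjVar k'}
  {φ : ∀ c, W.H (V c) → W'.H (V' c)}

/-- **Numerically trivial classes and words in pieces which specialise.** -/
theorem numTrivialOrthogonal_of_areSpecializations
    (hφ : AreSpecializations W.toCohomologyData W'.toCohomologyData V V' φ)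
    {E : ∀ c, Submodule K (W.H (V c))}
    (hE : ∀ c, Ro.IsPieceOver W.toCohomologyData F (V c) (E c))
    (h : ∀ c, HasNoIsotropicClass W.toCohomologyData W'.toCohomologyData F (E c) (φ c))
    (hD : ∀ n, NumTrivialOrthogonal W'.toCohomologyData (pt k') V'
      (fun c => (E c).map (hφ.lin c)) n) (n : ℕ) :
    NumTrivialOrthogonal W.toCohomologyData (pt k) V E n := by
  classical
  refine (Ro.orthogonal_iff.{u, v, w, v} W (Ro.standardD_power_pt W) V _ hE).mpr
    (fun G hG hdet => ?_) n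
  obtain ⟨N, m, b, l, r, f, e, z, x, hm, hN, hf, hz, hzF, hv⟩ := hdet
  have hpar : ∀ c, ∃ p, E c ≤ parityPart W.toCohomologyData (V c) p := fun c => (hE c).parity
  choose p hp using hpar
  choose u hu hu1 using fun c => (hE c).projector
  have hfE : ∀ y t, f y t ∈ E y.1 := fun y t => hG.le y.1 y.2 (by
    rw [← (hf y).2]
    exact Submodule.subset_span ⟨t, rfl⟩)
  -- the projectors and the pairing
  have hproj : ∀ (c : Fin P) (y g : W.H (V c)), g ∈ E c →
      W.pairing (V c) (u c y) g = W.pairing (V c) y g := by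
    intro c y g hg
    have hg' := parityPart_le_par W (V c) (p c) (hp c hg)
    have h1 := trL_mul_par W _ hg' (u c y)
    have h2 := trL_mul_par W _ hg' y
    have h3 : W.trL (V c) (g * u c y) = W.trL (V c) (g * y) := (hu1 c y).2 g hg
    rw [h3, h2] at h1
    change W.trL (V c) (u c y * g) = W.trL (V c) (y * g)
    split_ifs at h1
    · simpa using h1.symm
    · simpa using h1.symm
  obtain ⟨z₁, hz₁, hz₁v⟩ := Rn.exists_slots W (F := F) (A := power (pt k) l)
    (V := fun q => V (e.symm q).1.2.1) (w := fun q => u (e.symm q).1.2.1)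
    (fun q => hu _) (show z ∈ Rn.nt W F _ from ⟨hzF, hz⟩)
  have hval : ∀ v : (∀ q : (Σ y : Fin m × Fin P × Fin N, Fin (r y.2)), W.H (V q.1.2.1)),
      W.pairing (wordVar (pt k) V l fun q => (e.symm q).1.2.1) z₁
        (extProd W.toCohomologyData x fun q => v (e.symm q)) =
      ∏ y, Matrix.det (Matrix.of fun s t => W.pairing (V y.2.1) (v ⟨y, s⟩) (f y.2 t)) := by
    intro v
    refine (hz₁v x fun q => v (e.symm q)).trans
      ((hv (fun q => u q.1.2.1 (v q)) fun q => (hu1 _ _).1).trans ?_)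
    refine prod_congr rfl fun y _ => ?_
    congr 1
    ext s t
    exact hproj _ _ _ (hfE _ _)
  -- a family of vectors where the value is `1`
  obtain ⟨v₁, hv₁⟩ : ∃ v : (∀ q : (Σ y : Fin m × Fin P × Fin N, Fin (r y.2)), W.H (V q.1.2.1)),
      W.pairing (wordVar (pt k) V l fun q => (e.symm q).1.2.1) z₁
        (extProd W.toCohomologyData x fun q => v (e.symm q)) = 1 := by
    choose g hg using fun y : Fin P × Fin N => exists_dual_family W (hf y).1
    refine ⟨fun q => g q.1.2 q.2, (hval fun q => g q.1.2 q.2).trans ?_⟩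
    refine prod_eq_one fun y _ => ?_
    have h5 : (Matrix.of fun s t => W.pairing (V y.2.1) (g y.2 s) (f y.2 t)) = 1 := by
      ext s t
      rw [Matrix.of_apply, Matrix.one_apply]
      exact hg y.2 s t
    rw [h5, Matrix.det_one]
  have hx0 : x ≠ 0 := by
    rintro rfl
    have h3 := Ro.extProd_smul W (0 : K) (0 : W.H (power (pt k) l)) fun q => v₁ (e.symm q)
    rw [zero_smul, zero_smul] at h3
    have h4 : W.trL _ (z₁ * extProd W.toCohomologyData (0 : W.H (power (pt k) l))
      fun q => v₁ (e.symm q)) = 1 := hv₁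
    rw [h3, mul_zero, map_zero] at h4
    exact zero_ne_one h4
  rcases b with _ | b
  · -- no slots
    obtain ⟨c, hc⟩ := Ro.exists_smul_of_dim_zero W (X := power (pt k) l) (Ro.power_pt_dim l)
      (x := 1) (fun h => hx0 (by rw [← one_mul x, h, zero_mul])) x
    have h1 : (extProd W.toCohomologyData x fun q => v₁ (e.symm q) :
        W.H (wordVar (pt k) V l fun q => (e.symm q).1.2.1)) ∈ W.algClasses _ := by
      have h2 : (extProd W.toCohomologyData x fun q => v₁ (e.symm q) :
        W.H (wordVar (pt k) V l fun q => (e.symm q).1.2.1)) = c • 1 := by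
        change W.pullA (𝟙 (power (pt k) l).toOver) x * 1 = c • (1 : W.H (power (pt k) l))
        rw [hc, map_smul, map_one, mul_one]
      rw [h2]
      exact Submodule.smul_mem _ _ (cycleSpan_le (F := F) W _ (Ro.one_mem_cycleSpan W F _))
    rw [hz₁.2.2 _ h1] at hv₁
    exact zero_ne_one hv₁
  -- specialisation
  obtain ⟨z₂, c₂, hc₂, hz₂F, hz₂v⟩ := exists_pt W (V := fun q => V (e.symm q).1.2.1) hz₁ hx0
  obtain ⟨z', hz'F, hz'v⟩ := hφ.exists_spec (fun q => (e.symm q).1.2.1) hz₂F
  have hval' : ∀ v : (∀ q : (Σ y : Fin m × Fin P × Fin N, Fin (r y.2)), W.H (V q.1.2.1)),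
      W'.trL (prodVar (pt k') fun q => V' (e.symm q).1.2.1)
        (z' * (extProd W'.toCohomologyData (A := pt k') 1
          (fun q => φ (e.symm q).1.2.1 (v (e.symm q))) :
          W'.H (prodVar (pt k') fun q => V' (e.symm q).1.2.1))) =
      c₂ * ∏ y, Matrix.det (Matrix.of fun s t => W.pairing (V y.2.1) (v ⟨y, s⟩) (f y.2 t)) := by
    intro v
    rw [hz'v fun q => v (e.symm q), ← hval v]
    exact hz₂v fun q => v (e.symm q)
  obtain ⟨a', ha', hza⟩ := exists_cycle_of_word (W := W') (V := V')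
    (E := fun c => (E c).map (hφ.lin c)) (c := fun q => (e.symm q).1.2.1) (hD (b + 1)) hz'F
    (v := fun q => φ (e.symm q).1.2.1 (u (e.symm q).1.2.1 (v₁ (e.symm q))))
    (fun q => ⟨u (e.symm q).1.2.1 (v₁ (e.symm q)), (hu1 _ _).1, rfl⟩) (by
      rw [hval' fun q => u q.1.2.1 (v₁ q)]
      have h1 : ∏ y, Matrix.det (Matrix.of fun s t => W.pairing (V y.2.1)
          (u y.2.1 (v₁ ⟨y, s⟩)) (f y.2 t)) = 1 := by
        rw [← hv₁, hval v₁]
        refine prod_congr rfl fun y _ => ?_
        congr 1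
        ext s t
        exact hproj _ _ _ (hfE _ _)
      have h2 : c₂ * ∏ y, Matrix.det (Matrix.of fun s t => W.pairing (V y.2.1)
          (u y.2.1 (v₁ ⟨y, s⟩)) (f y.2 t)) ≠ 0 := by
        rw [h1, mul_one]
        exact hc₂
      exact h2)
  -- the last slot
  let c : Fin (b + 1) → Fin P := fun q => (e.symm q).1.2.1
  let p₀ := e.symm (Fin.last b)
  let G₀ : Submodule K (W.H (V (c (Fin.last b)))) := G p₀.1.2.1 p₀.1.2.2
  let G' : Submodule K (W'.H (V' (c (Fin.last b)))) := G₀.map (hφ.lin (c (Fin.last b)))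
  have hG' : G' ≤ par W' (decide (Odd (p (c (Fin.last b))))) (V' (c (Fin.last b))) := by
    rintro _ ⟨g, hg, rfl⟩
    exact parityPart_le_par W' _ _ (hφ.map_par _ (hp _ (hG.le _ _ hg)))
  have hzG := mem_last_slot_par W' (V := fun q => V' (c q)) (z := z') (G := G') hG'
    (fun v hvG => by
      choose w hw using fun q => (hφ.bijective (c q)).2 (v q)
      obtain ⟨w', hw'⟩ : ∃ w' : (∀ q : (Σ y : Fin m × Fin P × Fin N, Fin (r y.2)),
          W.H (V q.1.2.1)), (fun q => w' (e.symm q)) = w :=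
        ⟨(Equiv.piCongrLeft' (fun q : (Σ y : Fin m × Fin P × Fin N, Fin (r y.2)) =>
          W.H (V q.1.2.1)) e).symm w, (Equiv.piCongrLeft' (fun q :
            (Σ y : Fin m × Fin P × Fin N, Fin (r y.2)) => W.H (V q.1.2.1)) e).apply_symm_apply w⟩
      have h1 : v = fun q => φ (c q) (w' (e.symm q)) := by
        funext q
        rw [← hw q, ← hw']
      rw [h1]
      refine (hval' w').trans ?_
      have h3 : Matrix.det (Matrix.of fun s t => W.pairing (V p₀.1.2.1) (w' ⟨p₀.1, s⟩)
          (f p₀.1.2 t)) = 0 := by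
        refine Matrix.det_eq_zero_of_row_eq_zero p₀.2 fun t => ?_
        rw [Matrix.of_apply]
        have h4 : f p₀.1.2 t ∈ G₀ := by
          change f p₀.1.2 t ∈ G p₀.1.2.1 p₀.1.2.2
          rw [← (hf p₀.1.2).2]
          exact Submodule.subset_span ⟨t, rfl⟩
        have h5 := hvG _ ⟨_, h4, rfl⟩
        rw [h1] at h5
        have h6 := hφ.pairing_eq (c (Fin.last b)) (w' (e.symm (Fin.last b))) (f p₀.1.2 t)
        exact h6.symm.trans h5
      rw [prod_eq_zero (mem_univ p₀.1) h3, mul_zero])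
  -- the contraction
  obtain ⟨u', hu', hu'φ⟩ := hφ.exists_map (c (Fin.last b)) (hu (c (Fin.last b)))
  have huG : ∀ g ∈ G', ∀ x, W'.pairing (V' (c (Fin.last b))) g (u' x) =
      W'.pairing (V' (c (Fin.last b))) g x := by
    rintro _ ⟨g, hg, rfl⟩ x
    obtain ⟨x, rfl⟩ := (hφ.bijective (c (Fin.last b))).2 x
    change W'.pairing _ (φ (c (Fin.last b)) g) _ = W'.pairing _ (φ (c (Fin.last b)) g) _
    rw [hu'φ, hφ.pairing_eq, hφ.pairing_eq]
    exact (hu1 _ x).2 g (hG.le _ _ hg)
  obtain ⟨M, g, x', hg, hγ, hγ0⟩ := exists_contraction_par' W' hG' hu' huG hz'F ha' hzG hza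
  choose g₀ hg₀ hg₀' using hg
  choose x₀ hx₀ using fun i => (hφ.bijective (c (Fin.last b))).2 (x' i)
  have heq : (∑ i, W'.pull (fst (V' (c (Fin.last b))) (V' (c (Fin.last b)))) (g i) *
      W'.pull (snd (V' (c (Fin.last b))) (V' (c (Fin.last b)))) (u' (x' i))) =
      ∑ i, W'.pull (fst (V' (c (Fin.last b))) (V' (c (Fin.last b))))
          (φ (c (Fin.last b)) (g₀ i)) *
        W'.pull (snd (V' (c (Fin.last b))) (V' (c (Fin.last b))))
          (φ (c (Fin.last b)) (u (c (Fin.last b)) (x₀ i))) := by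
    refine sum_congr rfl fun i _ => ?_
    have h1 : g i = φ (c (Fin.last b)) (g₀ i) := (hg₀' i).symm
    rw [← hu'φ, hx₀, h1]
  rw [heq] at hγ hγ0
  exact hγ0 (h (c (Fin.last b)) G₀ (hG.le _ _)
    (fun u hu h => hG.correspondences _ _ u hu h _) (hG.isotropic _ _) M g₀
    (fun i => u (c (Fin.last b)) (x₀ i)) (fun i => ⟨hg₀ i, (hu1 _ _).1⟩) hγ)

end

/-- Pieces with a simple spectrum of Frobenius at a specialisation: numerically trivial classes are
orthogonal to words. -/
theorem numTrivialOrthogonal_of_simpleFrobenius (W : WeilCohomology.{u, v, w} k K)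
    (W' : WeilCohomology.{u', v, w'} k' K) [Finite k']
    {P : ℕ} {V : Fin P → SmProjVar k} {V' : Fin P → SmProjVar k'}
    {φ : ∀ c, W.H (V c) → W'.H (V' c)}
    (hφ : AreSpecializations W.toCohomologyData W'.toCohomologyData V V' φ)
    {E : ∀ c, Submodule K (W.H (V c))}
    (hE : ∀ c, Ro.IsPieceOver W.toCohomologyData (ratField K) (V c) (E c))
    (hmid : ∀ c, E c ≤ W.gr (V c) (V c).dim) {R : Fin P → ℚ[X]}
    (hR : ∀ c, IsCharpolyOn (W'.pull (frob (V' c))) ((E c).map (hφ.lin c))
      ((R c).map (algebraMap ℚ K)))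
    (hsq : ∀ c, Squarefree (R c))
    (habs : ∀ c, ∀ z : ℂ, aeval z (R c) = 0 → ‖z‖ ^ 2 = (Nat.card k' : ℝ) ^ (V c).dim)
    (hself : ∀ c (p : K[X]), Irreducible p → p ∣ (R c).map (algebraMap ℚ K) →
      Associated p (dualPoly ((Nat.card k' : K) ^ (V c).dim) p)) (n : ℕ) :
    NumTrivialOrthogonal W.toCohomologyData (pt k) V E n := by
  refine numTrivialOrthogonal_of_areSpecializations W W' hφ hE (fun c =>
    hasNoIsotropicClass_of_isPositiveAt _ _ (isPositiveAt_of_simple W W' hφ c (hE c) (hmid c)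
      (hR c) (hsq c) (habs c))) (fun n => ?_) n
  refine numTrivialOrthogonal_of_simple W' (fun c => hφ.isPiece c (hE c)) hR (fun c => ?_)
    (fun c p hp hpR => ?_) n
  · exact ((PerfectField.separable_iff_squarefree.mpr (hsq c)).map).squarefree
  · rw [hφ.dim_eq]
    exact hself c p hp hpR

end Pool.Agent.Helper34.GD
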